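import Pool.Agent.Work.MP_b5407d_lp.Interface

set_option autoImplicit false
open MeasureTheory Real Filter Topology Set

/-!
Block CEN: facts on centred convex bodies.
-/

namespace Pool.Agent.Work.LPBM.helper23

variable {n : ℕ}

lemma supp_bdd {K : Set (E n)} (hK : IsCompact K) (u : E n) :
    BddAbove ((fun y : E n => inner ℝ y u) '' K) :=
  hK.bddAbove_image (by fun_prop)

lemma le_supp {K : Set (E n)} (hK : IsCompact K) (u x : E n) (hx : x ∈ K) :
    inner ℝ x u ≤ supp K u :=
  le_csSup (supp_bdd hK u) ⟨x, hx, rfl⟩

lemma supp_le {K : Set (E n)} (hne : K.Nonempty) (u : E n) (c : ℝ)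
    (h : ∀ x ∈ K, inner ℝ x u ≤ c) : supp K u ≤ c := by
  apply csSup_le (hne.image _)
  rintro _ ⟨x, hx, rfl⟩
  exact h x hx

lemma integral_inner_zero {K : Set (E n)} (hK : IsCompact K) (h0 : (∫ x in K, x) = 0) (u : E n) :
    ∫ x in K, inner ℝ x u = 0 := by
  have h1 : IntegrableOn (fun x : E n => x) K := continuous_id.continuousOn.integrableOn_compact hK
  have h2 := (innerSL ℝ u).integral_comp_comm h1
  rw [h0, map_zero] at h2
  rw [← h2]
  congr 1
  ext x
  rw [innerSL_apply_apply, real_inner_comm]

lemma zero_mem_interior {K : Set (E n)} (hc : Convex ℝ K) (hK : IsCompact K)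
    (hne : (interior K).Nonempty) (h0 : (∫ x in K, x) = 0) : (0 : E n) ∈ interior K := by
  by_contra hcon
  obtain ⟨f, hf⟩ := geometric_hahn_banach_open_point hc.interior isOpen_interior hcon
  rw [map_zero] at hf
  have h1 : IntegrableOn (fun x : E n => x) K := continuous_id.continuousOn.integrableOn_compact hK
  have h2 := f.integral_comp_comm h1
  rw [h0, map_zero] at h2
  have hfK : ∀ x ∈ K, f x ≤ 0 := by
    intro x hx
    have hx' : x ∈ closure (interior K) := by
      rw [hc.closure_interior_eq_closure_of_nonempty_interior hne]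
      exact subset_closure hx
    have hcl : IsClosed {x : E n | f x ≤ 0} := isClosed_le f.continuous continuous_const
    exact (closure_minimal (fun y hy => (hf y hy).le) hcl) hx'
  have hint : IntegrableOn (fun x => - f x) K := (f.continuous.neg).continuousOn.integrableOn_compact hK
  have hpos : 0 < ∫ x in K, (- f x) := by
    rw [setIntegral_pos_iff_support_of_nonneg_ae _ hint]
    · refine lt_of_lt_of_le (isOpen_interior.measure_pos volume hne) (measure_mono ?_)
      intro x hx
      refine ⟨?_, interior_subset hx⟩
      simp only [Function.mem_support]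
      have := hf x hx
      linarith
    · rw [Filter.EventuallyLE, ae_restrict_iff' hK.measurableSet]
      exact Filter.Eventually.of_forall fun x hx => by simpa using hfK x hx
  rw [integral_neg, h2] at hpos
  simp at hpos

lemma supp_pos {K : Set (E n)} (hK : IsCompact K) (h0 : (0 : E n) ∈ interior K) (u : E n)
    (hu : u ≠ 0) : 0 < supp K u := by
  obtain ⟨ε, hε, hball⟩ := Metric.isOpen_iff.1 isOpen_interior 0 h0
  have hun : 0 < ‖u‖ := norm_pos_iff.2 hu
  have hy : (ε / 2 / ‖u‖) • u ∈ K := by
    apply interior_subset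
    apply hball
    rw [Metric.mem_ball, dist_zero_right, norm_smul, norm_of_nonneg (by positivity)]
    field_simp
    linarith
  have h1 := le_supp hK u _ hy
  have h2 : inner ℝ ((ε / 2 / ‖u‖) • u) u = ε / 2 * ‖u‖ := by
    rw [inner_smul_left, real_inner_self_eq_norm_sq]
    simp
    field_simp
  rw [h2] at h1
  have : 0 < ε / 2 * ‖u‖ := by positivity
  linarith

lemma supp_continuous {K : Set (E n)} (hK : IsCompact K) (hne : K.Nonempty) :
    Continuous (supp K) := by
  obtain ⟨R, hR⟩ := hK.isBounded.exists_norm_le
  obtain ⟨x0, hx0⟩ := hne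
  have hR0 : 0 ≤ R := (norm_nonneg _).trans (hR x0 hx0)
  have : LipschitzWith (Real.toNNReal R) (supp K) := by
    apply LipschitzWith.of_le_add_mul
    intro u v
    apply supp_le ⟨x0, hx0⟩
    intro x hx
    have h1 := le_supp hK v x hx
    have h2 : inner ℝ x u = inner ℝ x v + inner ℝ x (u - v) := by
      rw [inner_sub_right]; ring
    have h3 : inner ℝ x (u - v) ≤ ‖x‖ * ‖u - v‖ := real_inner_le_norm _ _
    have h4 : ‖x‖ * ‖u - v‖ ≤ R * ‖u - v‖ := mul_le_mul_of_nonneg_right (hR x hx) (norm_nonneg _)
    rw [Real.coe_toNNReal R hR0, dist_eq_norm, h2]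
    linarith
  exact this.continuous

lemma supp_neg_le {K : Set (E n)} (hn : 1 ≤ n) (hc : Convex ℝ K) (hK : IsCompact K)
    (hne : (interior K).Nonempty) (h0 : (∫ x in K, x) = 0) (u : E n) :
    supp K (-u) ≤ n * supp K u := by
  have hKne : K.Nonempty := hne.mono interior_subset
  -- the maximiser
  obtain ⟨x0, hx0, hmax⟩ := hK.exists_isMaxOn hKne
    (f := fun y : E n => inner ℝ y (-u)) (by fun_prop)
  set y : ℝ := - inner ℝ x0 u with hy
  have hsy : supp K (-u) ≤ y := by
    apply supp_le hKne
    intro x hx
    have := hmax hx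
    simp only [mem_ofPred_eq, inner_neg_right] at this ⊢
    exact this
  set h : ℝ := supp K u with hh
  have h0i := zero_mem_interior hc hK hne h0
  have hy0 : 0 ≤ y := by
    have := hmax (interior_subset h0i)
    simp only [mem_ofPred_eq, inner_neg_right, inner_zero_left] at this
    rw [hy]; linarith
  have hh0 : 0 ≤ h := by
    have := le_supp hK u 0 (interior_subset h0i)
    rw [inner_zero_left] at this
    exact this
  have hvolpos : 0 < (volume K).toReal := by
    rw [ENNReal.toReal_pos_iff]
    refine ⟨lt_of_lt_of_le (isOpen_interior.measure_pos volume hne) (measure_mono interior_subset), ?_⟩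
    exact hK.measure_lt_top
  -- the main inequality
  have key : ∀ s : ℝ, 0 < s → s < 1 → (1 - s) ^ n * (h + s * y) ≤ h := by
    intro s hs0 hs1
    have hs1' : 0 < 1 - s := by linarith
    set T : E n → E n := fun x => (1 - s) • x + s • x0 with hT
    have hTK : T '' K ⊆ K := by
      rintro _ ⟨x, hx, rfl⟩
      exact hc hx hx0 hs1'.le hs0.le (by ring)
    have hderiv : ∀ x ∈ K, HasFDerivWithinAt T ((1 - s) • ContinuousLinearMap.id ℝ (E n)) K x := by
      intro x _
      have h1 : HasFDerivAt (fun x : E n => (1 - s) • x) ((1 - s) • ContinuousLinearMap.id ℝ (E n)) x :=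
        (hasFDerivAt_id x).const_smul (1 - s)
      exact (h1.add_const (s • x0)).hasFDerivWithinAt
    have hinj : InjOn T K := by
      intro a _ b _ hab
      have : (1 - s) • a = (1 - s) • b := by simpa [hT] using hab
      exact smul_right_injective _ hs1'.ne' this
    have hcv := integral_image_eq_integral_abs_det_fderiv_smul volume hK.measurableSet hderiv hinj
      (fun x => h - inner ℝ x u)
    have hdet : ((1 - s) • ContinuousLinearMap.id ℝ (E n)).det = (1 - s) ^ n := by
      have h1 : ((1 - s) • ContinuousLinearMap.id ℝ (E n)).det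
          = LinearMap.det ((1 - s) • (LinearMap.id : E n →ₗ[ℝ] E n)) := rfl
      rw [h1, LinearMap.det_smul, LinearMap.det_id]
      simp
    have hii : IntegrableOn (fun x : E n => h - inner ℝ x u) K :=
      (by fun_prop : Continuous (fun x : E n => h - inner ℝ x u)).continuousOn.integrableOn_compact hK
    have hiu : IntegrableOn (fun x : E n => inner ℝ x u) K :=
      (by fun_prop : Continuous (fun x : E n => inner ℝ x u)).continuousOn.integrableOn_compact hK
    have hz := integral_inner_zero hK h0 u
    have hic : ∀ c : ℝ, Integrable (fun _ : E n => c) (volume.restrict K) := fun c =>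
      continuous_const.continuousOn.integrableOn_compact hK
    -- the two integrals
    have hI1 : ∫ x in K, (h - inner ℝ x u) = h * (volume K).toReal := by
      rw [integral_sub (hic h) hiu, hz, setIntegral_const]
      simp [Measure.real, mul_comm]
    have hI2 : ∫ x in K, |((1 - s) • ContinuousLinearMap.id ℝ (E n)).det| • (h - inner ℝ (T x) u)
        = (1 - s) ^ n * ((h + s * y) * (volume K).toReal) := by
      rw [hdet, abs_of_nonneg (by positivity)]
      simp only [smul_eq_mul]
      rw [integral_const_mul]
      congr 1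
      have h1 : ∀ x : E n, h - inner ℝ (T x) u = (h + s * y) - (1 - s) * inner ℝ x u := by
        intro x
        simp only [hT, inner_add_left, inner_smul_left, hy]
        simp
        ring
      simp_rw [h1]
      rw [integral_sub (hic _) (hiu.const_mul _), integral_const_mul, hz,
        setIntegral_const]
      simp [Measure.real, mul_comm]
    have hle : ∫ x in T '' K, (h - inner ℝ x u) ≤ ∫ x in K, (h - inner ℝ x u) := by
      apply setIntegral_mono_set hii
      · rw [Filter.EventuallyLE, ae_restrict_iff' hK.measurableSet]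
        refine Filter.Eventually.of_forall fun x hx => ?_
        have := le_supp hK u x hx
        simp only [Pi.zero_apply]
        linarith
      · exact LE.le.eventuallyLE hTK
    rw [hcv, hI2, hI1] at hle
    have : (1 - s) ^ n * (h + s * y) * (volume K).toReal ≤ h * (volume K).toReal := by
      linarith
    exact le_of_mul_le_mul_right this hvolpos
  -- the limit
  have key2 : ∀ s : ℝ, 0 < s → s < 1 → y ≤ n * h + n * s * y := by
    intro s hs0 hs1
    have h1 := key s hs0 hs1
    have h2 : 1 - (n : ℝ) * s ≤ (1 - s) ^ n := by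
      have := one_add_mul_le_pow (a := -s) (by linarith) n
      have h3 : (1 + -s) = 1 - s := by ring
      rw [h3] at this
      linarith
    have h3 : 0 ≤ h + s * y := by positivity
    have h4 : (1 - (n : ℝ) * s) * (h + s * y) ≤ h := (mul_le_mul_of_nonneg_right h2 h3).trans h1
    have h5 : s * y ≤ s * (n * h + n * s * y) := by nlinarith
    exact le_of_mul_le_mul_left h5 hs0
  have key3 : y ≤ n * h := by
    by_contra hcon
    push Not at hcon
    have hn0 : (0 : ℝ) < n := by exact_mod_cast hn
    set δ : ℝ := y - n * h with hδ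
    have hδ0 : 0 < δ := by linarith
    set s : ℝ := min (1 / 2) (δ / (2 * n * (y + 1))) with hs
    have hs0 : 0 < s := lt_min (by norm_num) (by positivity)
    have hs1 : s < 1 := (min_le_left _ _).trans_lt (by norm_num)
    have h1 := key2 s hs0 hs1
    have h2 : s ≤ δ / (2 * n * (y + 1)) := min_le_right _ _
    have h3 : n * s * y ≤ δ / 2 := by
      have h4 : n * s * y ≤ n * (δ / (2 * n * (y + 1))) * y := by gcongr
      refine h4.trans ?_
      have h5 : n * (δ / (2 * n * (y + 1))) * y = δ / 2 * (y / (y + 1)) := by
        field_simp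
      rw [h5]
      have h6 : y / (y + 1) ≤ 1 := by
        rw [div_le_one (by positivity)]; linarith
      nlinarith
    linarith
  linarith

lemma mem_of_supp {K : Set (E n)} (hc : Convex ℝ K) (hK : IsCompact K) (hne : K.Nonempty)
    (x : E n) (hx : ∀ u ∈ Metric.sphere (0 : E n) 1, inner ℝ x u ≤ supp K u) : x ∈ K := by
  by_contra hcon
  obtain ⟨f, c, hfK, hfx⟩ := geometric_hahn_banach_closed_point hc hK.isClosed hcon
  set w : E n := (InnerProductSpace.toDual ℝ (E n)).symm f with hw
  have hfw : ∀ z : E n, f z = inner ℝ z w := by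
    intro z
    rw [real_inner_comm, hw, InnerProductSpace.toDual_symm_apply]
  obtain ⟨a, ha⟩ := hne
  have hw0 : w ≠ 0 := by
    intro h
    have h1 := hfK a ha
    rw [hfw, h, inner_zero_right] at h1
    rw [hfw, h, inner_zero_right] at hfx
    linarith
  have hwn : 0 < ‖w‖ := norm_pos_iff.2 hw0
  have h1 := hx ((‖w‖)⁻¹ • w) (by
    rw [mem_sphere_zero_iff_norm, norm_smul, norm_inv, norm_norm, inv_mul_cancel₀ hwn.ne'])
  have h2 : supp K ((‖w‖)⁻¹ • w) ≤ ‖w‖⁻¹ * c := by
    apply supp_le ⟨a, ha⟩
    intro z hz
    rw [inner_smul_right, ← hfw]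
    exact mul_le_mul_of_nonneg_left (hfK z hz).le (by positivity)
  rw [inner_smul_right, ← hfw] at h1
  have h3 : ‖w‖⁻¹ * c < ‖w‖⁻¹ * f x := mul_lt_mul_of_pos_left hfx (by positivity)
  linarith

theorem stmt_CEN : Stmt_CEN := by
  intro n K hn ⟨hc, hK, hne, h0⟩
  have hKne : K.Nonempty := hne.mono interior_subset
  have h0i := zero_mem_interior hc hK hne h0
  exact ⟨h0i, fun u hu => supp_pos hK h0i u hu, supp_continuous hK hKne,
    fun u => supp_neg_le hn hc hK hne h0 u, fun u x hx => le_supp hK u x hx,
    fun x hx => mem_of_supp hc hK hKne x hx⟩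

end Pool.Agent.Work.LPBM.helper23
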