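import Pool.Agent.Work.MP_b5407d_lp_helper23.Tools

set_option autoImplicit false
open MeasureTheory Real Filter Topology Set

/-!
Block ETA: the covariance system is solvable.
-/

namespace Pool.Agent.Work.LPBM.helper23

lemma coord_le_norm {n : ℕ} (x : E n) (j : Fin n) : |x j| ≤ ‖x‖ := by
  have := PiLp.norm_apply_le x j
  rwa [norm_eq_abs] at this

theorem stmt_ETA (hSW : Stmt_SW0) (hINT : Stmt_INT) : Stmt_ETA := by
  intro n ι _ k θ h l hk hSpan f
  have hG2n : ∀ s, 0 ≤ G2 s := fun s => (hSW.2.2.2.2.2.2.1 s).trans (hSW.2.2.2.2.2.2.2.1 s)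
  have hG1n : ∀ s, 0 ≤ G1 s := hSW.2.2.2.2.2.2.1
  have hG12 : ∀ s, G1 s ≤ G2 s := hSW.2.2.2.2.2.2.2.1
  have hG1c : Continuous G1 := hSW.2.2.2.2.1.continuous
  set w : E n → ℝ := W k θ h l with hw
  have hwc : Continuous w := W_cont hSW k θ h l
  have hwp : ∀ x, 0 < w x := fun x => W_pos k θ h l x
  have hwt : ∀ x, wt (Vpot k θ h l) x = w x := fun x => rfl
  -- integrability
  have i0 : Integrable w := by
    have := intW_norm hINT hSW θ hSpan k h l hk (fun _ => 1) continuous_const 1 0 (by norm_num) (by simp)
    simpa using this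
  have i1 : ∀ j : Fin n, Integrable (fun x : E n => x j * w x) := fun j =>
    intW_norm hINT hSW θ hSpan k h l hk (fun x => x j) (by fun_prop) 1 1 (by norm_num)
      (fun x => by simpa using coord_le_norm x j)
  have i2 : ∀ i j : Fin n, Integrable (fun x : E n => x i * x j * w x) := fun i j =>
    intW_norm hINT hSW θ hSpan k h l hk (fun x => x i * x j) (by fun_prop) 1 2 (by norm_num)
      (fun x => by
        rw [abs_mul, one_mul, sq]
        exact mul_le_mul (coord_le_norm x i) (coord_le_norm x j) (abs_nonneg _) (norm_nonneg _))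
  -- the inhomogeneous part
  set Y0 : E n → ℝ := fun x => ∑ i, k * G1 (k * (inner ℝ (θ i) x - h i)) * f i with hY0
  have hY0c : Continuous Y0 := by rw [hY0]; fun_prop
  set Cf : ℝ := ∑ i, k * |f i| with hCf
  have hCf0 : 0 ≤ Cf := Finset.sum_nonneg fun i _ => by positivity
  have hY0b : ∀ x, |Y0 x| ≤ Cf * (1 + ∑ i, G2 (k * (inner ℝ (θ i) x - h i))) := by
    intro x
    have hs : ∀ i, G2 (k * (inner ℝ (θ i) x - h i)) ≤ 1 + ∑ i, G2 (k * (inner ℝ (θ i) x - h i)) := by
      intro i
      have := Finset.single_le_sum (f := fun i => G2 (k * (inner ℝ (θ i) x - h i)))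
        (fun j _ => hG2n _) (Finset.mem_univ i)
      linarith
    calc |Y0 x| ≤ ∑ i, |k * G1 (k * (inner ℝ (θ i) x - h i)) * f i| := Finset.abs_sum_le_sum_abs _ _
      _ ≤ ∑ i, k * |f i| * (1 + ∑ i, G2 (k * (inner ℝ (θ i) x - h i))) := by
          apply Finset.sum_le_sum
          intro i _
          rw [abs_mul, abs_mul, abs_of_pos hk, abs_of_nonneg (hG1n _)]
          have h1 := (hG12 (k * (inner ℝ (θ i) x - h i))).trans (hs i)
          calc k * G1 (k * (inner ℝ (θ i) x - h i)) * |f i|
              = k * |f i| * G1 (k * (inner ℝ (θ i) x - h i)) := by ring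
            _ ≤ _ := mul_le_mul_of_nonneg_left h1 (by positivity)
      _ = Cf * (1 + ∑ i, G2 (k * (inner ℝ (θ i) x - h i))) := by
          rw [hCf, Finset.sum_mul]
  have hSn : ∀ x : E n, 0 ≤ 1 + ∑ i, G2 (k * (inner ℝ (θ i) x - h i)) := by
    intro x
    have : 0 ≤ ∑ i, G2 (k * (inner ℝ (θ i) x - h i)) := Finset.sum_nonneg fun i _ => hG2n _
    linarith
  have i3 : Integrable (fun x : E n => Y0 x * w x) :=
    intW hINT hSW θ hSpan k h l hk Y0 hY0c Cf 0 1 (fun x => by simpa using hY0b x)
  have i4 : ∀ j : Fin n, Integrable (fun x : E n => x j * Y0 x * w x) := fun j =>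
    intW hINT hSW θ hSpan k h l hk (fun x => x j * Y0 x) (by fun_prop) Cf 1 1 (fun x => by
      rw [abs_mul]
      have h1 : |x j| ≤ exp (1 * ‖x‖) := by
        have := coord_le_norm x j
        have h2 := add_one_le_exp ‖x‖
        rw [one_mul]; linarith
      calc |x j| * |Y0 x| ≤ exp (1 * ‖x‖) * (Cf * (1 + ∑ i, G2 (k * (inner ℝ (θ i) x - h i)))) :=
            mul_le_mul h1 (hY0b x) (abs_nonneg _) (exp_pos _).le
        _ = _ := by ring)
  -- notation
  set Z : ℝ := ∫ x, w x with hZ
  have hZ0 : 0 < Z := int_pos hwc (fun x => (hwp x).le) i0 0 (hwp 0)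
  set M : Fin n → ℝ := fun j => ∫ x : E n, x j * w x with hM
  set G : Fin n → Fin n → ℝ := fun j i => ∫ x : E n, x i * x j * w x with hG
  have hinner : ∀ η x : E n, inner ℝ η x = ∑ i, η i * x i := by
    intro η x
    simp [PiLp.inner_apply, mul_comm]
  -- linear functionals
  have iη : ∀ η : E n, Integrable (fun x : E n => inner ℝ η x * w x) := by
    intro η
    have : (fun x : E n => inner ℝ η x * w x) = fun x => ∑ i, η i * (x i * w x) := by
      ext x; rw [hinner, Finset.sum_mul]; exact Finset.sum_congr rfl fun i _ => by ring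
    rw [this]
    exact integrable_finsetSum _ fun i _ => (i1 i).const_mul _
  have Iη : ∀ η : E n, ∫ x : E n, inner ℝ η x * w x = ∑ i, η i * M i := by
    intro η
    have : (fun x : E n => inner ℝ η x * w x) = fun x => ∑ i, η i * (x i * w x) := by
      ext x; rw [hinner, Finset.sum_mul]; exact Finset.sum_congr rfl fun i _ => by ring
    rw [this, integral_finsetSum _ fun i _ => (i1 i).const_mul _]
    exact Finset.sum_congr rfl fun i _ => by rw [integral_const_mul]
  have iηj : ∀ (η : E n) (j : Fin n), Integrable (fun x : E n => x j * inner ℝ η x * w x) := by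
    intro η j
    have : (fun x : E n => x j * inner ℝ η x * w x) = fun x => ∑ i, η i * (x i * x j * w x) := by
      ext x; rw [hinner, Finset.mul_sum, Finset.sum_mul]; exact Finset.sum_congr rfl fun i _ => by ring
    rw [this]
    exact integrable_finsetSum _ fun i _ => (i2 i j).const_mul _
  have Iηj : ∀ (η : E n) (j : Fin n), ∫ x : E n, x j * inner ℝ η x * w x = ∑ i, η i * G j i := by
    intro η j
    have : (fun x : E n => x j * inner ℝ η x * w x) = fun x => ∑ i, η i * (x i * x j * w x) := by
      ext x; rw [hinner, Finset.mul_sum, Finset.sum_mul]; exact Finset.sum_congr rfl fun i _ => by ring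
    rw [this, integral_finsetSum _ fun i _ => (i2 i j).const_mul _]
    exact Finset.sum_congr rfl fun i _ => by rw [integral_const_mul]
  -- the matrix
  set Cm : Matrix (Fin n) (Fin n) ℝ := Matrix.of fun j i => G j i - M i * M j / Z with hCm
  have hinj : Function.Injective Cm.mulVec := by
    rw [← Matrix.coe_mulVecLin]
    rw [injective_iff_map_eq_zero]
    intro v hv
    set η : E n := WithLp.toLp 2 v with hη
    have hηv : ∀ i, η i = v i := fun i => rfl
    set c : ℝ := (∑ i, η i * M i) / Z with hc
    -- the square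
    have iηη : Integrable (fun x : E n => inner ℝ η x * inner ℝ η x * w x) := by
      have : (fun x : E n => inner ℝ η x * inner ℝ η x * w x)
          = fun x => ∑ j, η j * (x j * inner ℝ η x * w x) := by
        ext x
        have h1 : inner ℝ η x * inner ℝ η x * w x = (∑ j, η j * x j) * (inner ℝ η x * w x) := by
          rw [← hinner]; ring
        rw [h1, Finset.sum_mul]; exact Finset.sum_congr rfl fun i _ => by ring
      rw [this]
      exact integrable_finsetSum _ fun j _ => (iηj η j).const_mul _
    have Iηη : ∫ x : E n, inner ℝ η x * inner ℝ η x * w x = ∑ j, η j * ∑ i, η i * G j i := by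
      have : (fun x : E n => inner ℝ η x * inner ℝ η x * w x)
          = fun x => ∑ j, η j * (x j * inner ℝ η x * w x) := by
        ext x
        have h1 : inner ℝ η x * inner ℝ η x * w x = (∑ j, η j * x j) * (inner ℝ η x * w x) := by
          rw [← hinner]; ring
        rw [h1, Finset.sum_mul]; exact Finset.sum_congr rfl fun i _ => by ring
      rw [this, integral_finsetSum _ fun j _ => (iηj η j).const_mul _]
      exact Finset.sum_congr rfl fun i _ => by rw [integral_const_mul, Iηj]
    have hsq : ∀ x : E n, (inner ℝ η x - c) ^ 2 * w x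
        = inner ℝ η x * inner ℝ η x * w x - 2 * c * (inner ℝ η x * w x) + c ^ 2 * w x := by
      intro x; ring
    have isq : Integrable (fun x : E n => (inner ℝ η x - c) ^ 2 * w x) := by
      simp_rw [hsq]
      exact (iηη.sub ((iη η).const_mul _)).add (i0.const_mul _)
    have Isq : ∫ x : E n, (inner ℝ η x - c) ^ 2 * w x = 0 := by
      simp_rw [hsq]
      have e1 := integral_add (μ := volume)
        (f := fun x : E n => inner ℝ η x * inner ℝ η x * w x - 2 * c * (inner ℝ η x * w x))
        (g := fun x : E n => c ^ 2 * w x) (iηη.sub ((iη η).const_mul _)) (i0.const_mul _)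
      have e2 := integral_sub (μ := volume) (f := fun x : E n => inner ℝ η x * inner ℝ η x * w x)
        (g := fun x : E n => 2 * c * (inner ℝ η x * w x)) iηη ((iη η).const_mul _)
      rw [e1, e2, integral_const_mul, integral_const_mul, Iηη, Iη]
      have h1 : ∀ j, (Cm.mulVec v) j = 0 := fun j => by
        have := congrFun hv j
        simpa using this
      have h2 : ∑ j, η j * (Cm.mulVec v) j = 0 := by simp [h1]
      have h3 : ∑ j, η j * (Cm.mulVec v) j
          = (∑ j, η j * ∑ i, η i * G j i) - (∑ i, η i * M i) * (∑ i, η i * M i) / Z := by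
        have h4 : ∀ j, η j * (Cm.mulVec v) j = η j * (∑ i, η i * G j i)
            - (η j * M j) * ((∑ i, η i * M i) / Z) := by
          intro j
          have h5 : (Cm.mulVec v) j = (∑ i, η i * G j i) - M j * ((∑ i, η i * M i) / Z) := by
            simp only [Matrix.mulVec, dotProduct, hCm, Matrix.of_apply, ← hηv]
            rw [Finset.sum_div, Finset.mul_sum, ← Finset.sum_sub_distrib]
            exact Finset.sum_congr rfl fun i _ => by ring
          rw [h5]; ring
        simp_rw [h4]
        rw [Finset.sum_sub_distrib, ← Finset.sum_mul]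
        ring
      rw [h2] at h3
      have h6 : (∑ i, η i * M i) = c * Z := by rw [hc]; field_simp
      have h7 : (∑ i, η i * M i) * (∑ i, η i * M i) / Z = c * c * Z := by
        rw [h6]; field_simp
      rw [h7] at h3
      rw [h6]
      linarith
    have hzero : ∀ x : E n, (inner ℝ η x - c) ^ 2 * w x = 0 := by
      intro x
      by_contra hne
      have h1 : 0 < (inner ℝ η x - c) ^ 2 * w x :=
        lt_of_le_of_ne (mul_nonneg (sq_nonneg _) (hwp x).le) (Ne.symm hne)
      have h2 := int_pos (F := fun x : E n => (inner ℝ η x - c) ^ 2 * w x) (by fun_prop)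
        (fun x => mul_nonneg (sq_nonneg _) (hwp x).le) isq x h1
      rw [Isq] at h2
      exact lt_irrefl _ h2
    have hc0 : ∀ x : E n, inner ℝ η x = c := by
      intro x
      have h1 := hzero x
      have h2 : (inner ℝ η x - c) ^ 2 = 0 := (mul_eq_zero.1 h1).resolve_right (hwp x).ne'
      have h3 := pow_eq_zero_iff (two_ne_zero) |>.1 h2
      linarith
    have h1 := hc0 0
    have h2 := hc0 η
    rw [inner_zero_right] at h1
    rw [← h1, inner_self_eq_zero] at h2
    ext i
    rw [← hηv i, h2]
    rfl
  have hsurj : Function.Surjective Cm.mulVec := by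
    rw [Matrix.mulVec_surjective_iff_isUnit, ← Matrix.mulVec_injective_iff_isUnit]
    exact hinj
  -- the right side
  set b : Fin n → ℝ := fun j => (∫ x : E n, x j * Y0 x * w x) - ((∫ x, Y0 x * w x) / Z) * M j with hb
  obtain ⟨v, hv⟩ := hsurj (-b)
  set η : E n := WithLp.toLp 2 v with hη
  have hηv : ∀ i, η i = v i := fun i => rfl
  refine ⟨η, fun j => ?_⟩
  have hYf : ∀ x, Yf k θ h f η x = inner ℝ η x + Y0 x := fun x => rfl
  have hmean : mean (Vpot k θ h l) (Yf k θ h f η) = ((∑ i, η i * M i) + ∫ x, Y0 x * w x) / Z := by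
    unfold mean
    congr 1
    have : ∀ x, Yf k θ h f η x * wt (Vpot k θ h l) x = inner ℝ η x * w x + Y0 x * w x := by
      intro x; rw [hYf, hwt]; ring
    simp_rw [this]
    rw [integral_add (iη η) i3, Iη]
  rw [hmean]
  set mu : ℝ := ((∑ i, η i * M i) + ∫ x, Y0 x * w x) / Z with hmu
  have hint : (fun x : E n => x j * (Yf k θ h f η x - mu) * w x)
      = fun x : E n => x j * inner ℝ η x * w x + x j * Y0 x * w x - mu * (x j * w x) := by
    ext x; rw [hYf]; ring
  have e1 := integral_sub (μ := volume)
    (f := fun x : E n => x j * inner ℝ η x * w x + x j * Y0 x * w x)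
    (g := fun x : E n => mu * (x j * w x)) ((iηj η j).add (i4 j)) ((i1 j).const_mul _)
  have e2 := integral_add (μ := volume) (f := fun x : E n => x j * inner ℝ η x * w x)
    (g := fun x : E n => x j * Y0 x * w x) (iηj η j) (i4 j)
  rw [show (∫ x : E n, x j * (Yf k θ h f η x - mu) * w x) = _ from congrArg (integral volume) hint,
    e1, e2, integral_const_mul, Iηj]
  have h1 := congrFun hv j
  have h2 : (Cm.mulVec v) j = (∑ i, η i * G j i) - M j * ((∑ i, η i * M i) / Z) := by
    simp only [Matrix.mulVec, dotProduct, hCm, Matrix.of_apply, ← hηv]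
    rw [Finset.sum_div, Finset.mul_sum, ← Finset.sum_sub_distrib]
    exact Finset.sum_congr rfl fun i _ => by ring
  rw [h2] at h1
  simp only [Pi.neg_apply, hb] at h1
  have h3 : mu * M j = M j * ((∑ i, η i * M i) / Z) + ((∫ x, Y0 x * w x) / Z) * M j := by
    rw [hmu]; ring
  have h4 : ∫ x : E n, x j * w x = M j := rfl
  rw [h4, h3]
  linarith

end Pool.Agent.Work.LPBM.helper23
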