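import Pool.Agent.Work.MP_b5407d_lp_helper23.Tools

set_option autoImplicit false
open MeasureTheory Real Filter Topology Set

/-!
Block POL: the inequality for finitely many directions.
-/

namespace Pool.Agent.Work.LPBM.helper23

lemma mp_base_pos {p t a b : ℝ} (ht : t ∈ Icc (0 : ℝ) 1) (ha : 0 < a) (hb : 0 < b) :
    0 < (1 - t) * a ^ p + t * b ^ p := by
  have h1 : 0 < a ^ p := rpow_pos_of_pos ha p
  have h2 : 0 < b ^ p := rpow_pos_of_pos hb p
  rcases eq_or_lt_of_le ht.1 with h | h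
  · rw [← h]; simpa using h1
  · have h3 : 0 ≤ 1 - t := by linarith [ht.2]
    have h4 := mul_nonneg h3 h1.le
    have h5 := mul_pos h h2
    linarith

lemma mp_mono {p t a b a' b' : ℝ} (hp : 0 < p) (ht : t ∈ Icc (0 : ℝ) 1) (ha : 0 < a) (hb : 0 < b)
    (haa : a ≤ a') (hbb : b ≤ b') : mp p t a b ≤ mp p t a' b' := by
  unfold mp
  apply rpow_le_rpow (mp_base_pos ht ha hb).le _ (by positivity)
  have h1 : a ^ p ≤ a' ^ p := rpow_le_rpow ha.le haa hp.le
  have h2 : b ^ p ≤ b' ^ p := rpow_le_rpow hb.le hbb hp.le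
  have h3 : 0 ≤ 1 - t := by linarith [ht.2]
  exact add_le_add (mul_le_mul_of_nonneg_left h1 h3) (mul_le_mul_of_nonneg_left h2 ht.1)

lemma mp_smul {p t a b c : ℝ} (hp : 0 < p) (ht : t ∈ Icc (0 : ℝ) 1) (ha : 0 < a) (hb : 0 < b)
    (hc : 0 < c) : mp p t (c * a) (c * b) = c * mp p t a b := by
  unfold mp
  have h1 : (1 - t) * (c * a) ^ p + t * (c * b) ^ p = c ^ p * ((1 - t) * a ^ p + t * b ^ p) := by
    rw [mul_rpow hc.le ha.le, mul_rpow hc.le hb.le]; ring
  rw [h1, mul_rpow (rpow_nonneg hc.le _) (mp_base_pos ht ha hb).le, ← rpow_mul hc.le,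
    mul_one_div_cancel hp.ne', rpow_one]

lemma mp_self {p t a : ℝ} (hp : 0 < p) (ha : 0 < a) : mp p t a a = a := by
  unfold mp
  have h1 : (1 - t) * a ^ p + t * a ^ p = a ^ p := by ring
  rw [h1, ← rpow_mul ha.le, mul_one_div_cancel hp.ne', rpow_one]

variable {n : ℕ} {ι : Type} [Fintype ι]

lemma Pset_bdd {θ : ι → E n} (hSpan : Span θ) (h : ι → ℝ) :
    ∃ R, ∀ x ∈ Pset θ h, ‖x‖ ≤ R := by
  obtain ⟨c, hc, hs⟩ := hSpan
  refine ⟨(∑ i, |h i|) / c, fun x hx => ?_⟩
  obtain ⟨i, hi⟩ := hs x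
  rw [le_div_iff₀ hc]
  have h1 := hx i
  have h2 : |h i| ≤ ∑ i, |h i| :=
    Finset.single_le_sum (f := fun i => |h i|) (fun j _ => abs_nonneg _) (Finset.mem_univ i)
  have h3 := le_abs_self (h i)
  linarith

lemma J_ge (hINT : Stmt_INT) (hSW : Stmt_SW0) (θ : ι → E n) (hSpan : Span θ) (k : ℝ) (hk : 0 < k)
    (h : ι → ℝ) (K : Set (E n)) (hK : MeasurableSet K) (hKP : K ⊆ Pset θ h)
    (h0 : (∫ x in K, x) = 0) (l : E n) : (volume K).toReal ≤ J k θ h l := by
  obtain ⟨R, hR⟩ := Pset_bdd hSpan h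
  have hfin : volume K < ⊤ := by
    have : K ⊆ Metric.closedBall 0 R := fun x hx => by
      rw [mem_closedBall_zero_iff]; exact hR x (hKP hx)
    exact (measure_mono this).trans_lt measure_closedBall_lt_top
  have hWi : Integrable (W k θ h l) := by
    have := intW_norm hINT hSW θ hSpan k h l hk (fun _ => 1) continuous_const 1 0 (by norm_num) (by simp)
    simpa using this
  have hidi : IntegrableOn (fun x : E n => x) K := by
    refine Measure.integrableOn_of_bounded (M := R) hfin.ne (by fun_prop) ?_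
    rw [ae_restrict_iff' hK]
    exact Filter.Eventually.of_forall fun x hx => hR x (hKP hx)
  have hli : IntegrableOn (fun x : E n => inner ℝ l x) K := (innerSL ℝ l).integrable_comp hidi
  have hlz : ∫ x in K, inner ℝ l x = 0 := by
    have h2 := (innerSL ℝ l).integral_comp_comm hidi
    rw [h0, map_zero] at h2
    exact h2
  have hc1 : IntegrableOn (fun _ : E n => (1 : ℝ)) K := by
    refine Measure.integrableOn_of_bounded (M := 1) hfin.ne (by fun_prop) ?_
    exact Filter.Eventually.of_forall fun x => by simp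
  have h1 : ∫ x in K, (1 + inner ℝ l x) = (volume K).toReal := by
    rw [integral_add hc1 hli, hlz, setIntegral_const]
    simp [Measure.real]
  rw [← h1]
  have h2 : ∫ x in K, (1 + inner ℝ l x) ≤ ∫ x in K, W k θ h l x := by
    apply setIntegral_mono_on (hc1.add hli) hWi.integrableOn hK
    intro x hx
    have hU : Upot k θ h x = 0 := by
      unfold Upot
      apply Finset.sum_eq_zero
      intro i _
      unfold G0
      rw [if_pos]
      have := hKP hx i
      have h3 : inner ℝ (θ i) x - h i ≤ 0 := by linarith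
      exact mul_nonpos_of_nonneg_of_nonpos hk.le h3
    have hW : W k θ h l x = exp (inner ℝ l x) := by
      unfold W wt Vpot
      rw [hU]; congr 1; ring
    rw [hW]
    have h3 := add_one_le_exp (inner ℝ l x)
    have h4 : 1 + inner ℝ l x ≤ exp (inner ℝ l x) := by linarith
    exact h4
  refine h2.trans ?_
  unfold J
  exact setIntegral_le_integral hWi (Filter.Eventually.of_forall fun x => (W_pos k θ h l x).le)

theorem stmt_POL (hSW : Stmt_SW0) (hINT : Stmt_INT) (hLIN : Stmt_LIN) (hPTH : Stmt_PTH)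
    (hLIM : Stmt_LIM) : Stmt_POL := by
  intro n ι _ p θ σ a b K C hn hp0 hp1 hp2 hSpan hθ hσ ha hb haσ hbσ hKm hCm hKP hCP hKv hCv hK0 hC0
    t htt
  have hne : Nonempty ι := by
    obtain ⟨c, hc, hs⟩ := hSpan
    obtain ⟨i, _⟩ := hs 0
    exact ⟨i⟩
  have hn0 : (0 : ℝ) < n := by
    have : 0 < n := by omega
    exact_mod_cast this
  -- the least support number
  obtain ⟨hm, hm0, hma, hmb⟩ : ∃ hm : ℝ, 0 < hm ∧ (∀ i, hm ≤ a i) ∧ (∀ i, hm ≤ b i) := by
    obtain ⟨ia, hia⟩ := Finite.exists_min a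
    obtain ⟨ib, hib⟩ := Finite.exists_min b
    exact ⟨min (a ia) (b ib), lt_min (ha ia) (hb ib), fun i => (min_le_left _ _).trans (hia i),
      fun i => (min_le_right _ _).trans (hib i)⟩
  have hht : ∀ s ∈ Icc (0 : ℝ) 1, ∀ i, hm ≤ ht p a b s i := by
    intro s hs i
    have := mp_mono hp0 hs hm0 hm0 (hma i) (hmb i)
    rwa [mp_self hp0 hm0] at this
  -- finite volumes
  have hfin : ∀ (h : ι → ℝ) (S : Set (E n)), S ⊆ Pset θ h → volume S < ⊤ := by
    intro h S hS
    obtain ⟨R, hR⟩ := Pset_bdd hSpan h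
    have : S ⊆ Metric.closedBall 0 R := fun x hx => by
      rw [mem_closedBall_zero_iff]; exact hR x (hS hx)
    exact (measure_mono this).trans_lt measure_closedBall_lt_top
  have hKr : 0 < (volume K).toReal := ENNReal.toReal_pos hKv.ne' (hfin a K hKP).ne
  have hCr : 0 < (volume C).toReal := ENNReal.toReal_pos hCv.ne' (hfin b C hCP).ne
  -- for large k
  have hlarge : ∀ k : ℕ, 1000 * n / hm ≤ (k : ℝ) →
      (volume K).toReal ^ (1 - t) * (volume C).toReal ^ t ≤ J (k : ℝ) θ (ht p a b t) 0 := by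
    intro k hk
    have hk1 : 1000 * n ≤ (k : ℝ) * hm := by rwa [div_le_iff₀ hm0] at hk
    have hk0 : 0 < (k : ℝ) := lt_of_lt_of_le (by positivity) hk
    have h1 := hPTH n ι p k θ a b (log (volume K).toReal) (log (volume C).toReal) hp0 hp1 hk0 hSpan
      ha hb
      (fun l => log_le_log hKr (J_ge hINT hSW θ hSpan k hk0 a K hKm hKP hK0 l))
      (fun l => log_le_log hCr (J_ge hINT hSW θ hSpan k hk0 b C hCm hCP hC0 l))
      (fun s hs l hl f ε hε => by
        have hs' : s ∈ Icc (0 : ℝ) 1 := ⟨hs.1.le, hs.2.le⟩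
        refine hLIN n ι p k θ (ht p a b s) l hm hn hSpan hp1 hp2 hk0 hm0 (hht s hs') hk1 ?_ hl f ε hε
        intro x hx i
        have h2 := hx (σ i)
        rw [hσ, inner_neg_left] at h2
        have h3 : ht p a b s (σ i) ≤ n * ht p a b s i := by
          have h4 := mp_mono hp0 hs' (ha (σ i)) (hb (σ i)) (haσ i) (hbσ i)
          rw [mp_smul hp0 hs' (ha i) (hb i) hn0] at h4
          exact h4
        rw [inner_neg_right, inner_smul_right]
        have h5 : -(inner ℝ (θ i) x) ≤ n * ht p a b s i := h2.trans h3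
        have h6 : -(1 / (n : ℝ) * inner ℝ (θ i) x) = 1 / (n : ℝ) * (-(inner ℝ (θ i) x)) := by ring
        rw [h6]
        calc 1 / (n : ℝ) * (-(inner ℝ (θ i) x)) ≤ 1 / (n : ℝ) * (n * ht p a b s i) :=
              mul_le_mul_of_nonneg_left h5 (by positivity)
          _ = ht p a b s i := by field_simp) t htt 0
    have hWi : Integrable (W (k : ℝ) θ (ht p a b t) 0) := by
      have := intW_norm hINT hSW θ hSpan (k : ℝ) (ht p a b t) 0 hk0 (fun _ => 1) continuous_const 1 0
        (by norm_num) (by simp)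
      simpa using this
    have hJ0 : 0 < J (k : ℝ) θ (ht p a b t) 0 :=
      int_pos (W_cont hSW _ _ _ _) (fun x => (W_pos _ _ _ _ x).le) hWi 0 (W_pos _ _ _ _ 0)
    rw [← log_le_log_iff (by positivity) hJ0, log_mul (by positivity) (by positivity),
      log_rpow hKr, log_rpow hCr]
    exact h1
  have hlim := hLIM n ι θ (ht p a b t) hSpan (fun i => hm0.trans_le (hht t htt i)) hθ
  refine ge_of_tendsto hlim ?_
  filter_upwards [eventually_ge_atTop ⌈1000 * n / hm⌉₊] with k hk
  exact hlarge k ((Nat.le_ceil _).trans (by exact_mod_cast hk))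

end Pool.Agent.Work.LPBM.helper23
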