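import Pool.Agent.Work.MP_b5407d_lp.Interface

set_option autoImplicit false
open MeasureTheory Real Filter Topology

/-!
Block INT: majorants for soft polytope weights.
-/

namespace Pool.Agent.Work.LPBM.helper23

lemma one_add_sum_le {ι : Type} (s : Finset ι) (g : ι → ℝ) (hg : ∀ i, 0 ≤ g i) :
    1 + ∑ i ∈ s, g i ≤ ∏ i ∈ s, (1 + g i) := by
  classical
  induction s using Finset.induction_on with
  | empty => simp
  | insert a s ha ih =>
    rw [Finset.sum_insert ha, Finset.prod_insert ha]
    have h1 : 0 ≤ ∑ i ∈ s, g i := Finset.sum_nonneg fun i _ => hg i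
    nlinarith [hg a, mul_le_mul_of_nonneg_left ih (hg a), mul_nonneg (hg a) h1]

lemma cubic_bound (a b t : ℝ) (ha : 0 ≤ a) (hb : 0 < b) (ht : 0 ≤ t) :
    a * t - b * t ^ 3 ≤ a * (1 + a / b) := by
  have hab : 0 ≤ a / b := by positivity
  by_cases h : t ≤ 1 + a / b
  · have h1 : a * t ≤ a * (1 + a / b) := mul_le_mul_of_nonneg_left h ha
    have h2 : 0 ≤ b * t ^ 3 := by positivity
    linarith
  · push Not at h
    have h1 : 1 ≤ t := by linarith
    have h2 : a / b ≤ t := by linarith
    have h3 : a ≤ b * t := by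
      rw [div_le_iff₀ hb] at h2; linarith
    have h4 : b * t ≤ b * t ^ 2 := by nlinarith [mul_le_mul_of_nonneg_left h1 ht]
    have h5 : a * t ≤ b * t ^ 2 * t := mul_le_mul_of_nonneg_right (h3.trans h4) ht
    have h6 : 0 ≤ a * (1 + a / b) := by positivity
    nlinarith

theorem stmt_INT (hSW : Stmt_SW0) : Stmt_INT := by
  obtain ⟨-, -, -, -, -, hG0n, hG1n, hG12, -, hG0c, -, hG0m, -, -, hC⟩ := hSW
  intro n ι _ θ hSpan k₀ k₁ H A hk₀ m
  obtain ⟨c, hc, hspan⟩ := hSpan
  obtain ⟨C, hCb⟩ := hC m (1 / 2) (by norm_num)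
  have hG2n : ∀ s, 0 ≤ G2 s := fun s => (hG1n s).trans (hG12 s)
  have hC0 : 0 ≤ C := by
    have := hCb 0
    have h2 : 0 ≤ (1 + G2 0) ^ m * exp (-(1 / 2 * G0 0)) := by
      have := hG2n 0
      positivity
    linarith
  set A' : ℝ := max A 0 with hA'
  have hA'0 : 0 ≤ A' := le_max_right _ _
  set a : ℝ := (2 * A' + (n + 1)) / c with ha
  have ha0 : 0 ≤ a := by positivity
  set b : ℝ := k₀ ^ 3 / 12 with hb
  have hb0 : 0 < b := by positivity
  set D : ℝ := a * (1 + a / b) + a * |H| with hD
  refine ⟨fun x => C ^ Fintype.card ι * exp D * (1 + ‖x‖) ^ (-((n : ℝ) + 1)), ?_, ?_⟩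
  · refine Integrable.const_mul ?_ _
    apply integrable_one_add_norm
    simp
  · intro k h l hk _ hh hl x
    have hlA : ‖l‖ ≤ A' := hl.trans (le_max_left _ _)
    have hkp : 0 < k := hk₀.trans_le hk
    -- the walls
    set U : ℝ := Upot k θ h x with hU
    have hU0 : ∀ i, G0 (k * (inner ℝ (θ i) x - h i)) ≤ U := by
      intro i
      exact Finset.single_le_sum (f := fun i => G0 (k * (inner ℝ (θ i) x - h i)))
        (fun j _ => hG0n _) (Finset.mem_univ i)
    -- lower bound for U
    obtain ⟨i₀, hi₀⟩ := hspan x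
    set t : ℝ := max 0 (c * ‖x‖ - |H|) with ht
    have ht0 : 0 ≤ t := le_max_left _ _
    have hH : h i₀ ≤ |H| := by
      have := hh i₀
      have h2 := le_abs_self (h i₀)
      have h3 := le_abs_self H
      linarith
    have hUt : (k₀ * t) ^ 3 / 6 ≤ U := by
      by_cases hcx : 0 ≤ c * ‖x‖ - |H|
      · have ht' : t = c * ‖x‖ - |H| := max_eq_right hcx
        have h1 : k₀ * t ≤ k * (inner ℝ (θ i₀) x - h i₀) := by
          rw [ht']
          have h3 : c * ‖x‖ - |H| ≤ inner ℝ (θ i₀) x - h i₀ := by linarith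
          calc k₀ * (c * ‖x‖ - |H|) ≤ k * (c * ‖x‖ - |H|) := mul_le_mul_of_nonneg_right hk hcx
            _ ≤ k * (inner ℝ (θ i₀) x - h i₀) := mul_le_mul_of_nonneg_left h3 hkp.le
        have h2 := hG0c (k₀ * t) (by positivity)
        exact h2.trans ((hG0m h1).trans (hU0 i₀))
      · have ht' : t = 0 := max_eq_left (by linarith)
        rw [ht']
        have h1 : 0 ≤ U := (hG0n _).trans (hU0 i₀)
        simpa using h1
    -- the product bound
    have hprod : (1 + ∑ i, G2 (k * (inner ℝ (θ i) x - h i))) ^ m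
        ≤ C ^ Fintype.card ι * exp (U / 2) := by
      have h1 : (1 + ∑ i, G2 (k * (inner ℝ (θ i) x - h i))) ^ m
          ≤ (∏ i, (1 + G2 (k * (inner ℝ (θ i) x - h i)))) ^ m := by
        apply pow_le_pow_left₀
        · have : 0 ≤ ∑ i, G2 (k * (inner ℝ (θ i) x - h i)) := Finset.sum_nonneg fun i _ => hG2n _
          linarith
        · exact one_add_sum_le _ _ fun i => hG2n _
      refine h1.trans ?_
      rw [← Finset.prod_pow]
      have h2 : ∀ i, (1 + G2 (k * (inner ℝ (θ i) x - h i))) ^ m
          ≤ C * exp (G0 (k * (inner ℝ (θ i) x - h i)) / 2) := by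
        intro i
        have h3 := hCb (k * (inner ℝ (θ i) x - h i))
        rw [exp_neg, ← div_eq_mul_inv, div_le_iff₀ (exp_pos _)] at h3
        refine h3.trans (le_of_eq ?_)
        congr 2
        ring
      calc ∏ i, (1 + G2 (k * (inner ℝ (θ i) x - h i))) ^ m
          ≤ ∏ i, (C * exp (G0 (k * (inner ℝ (θ i) x - h i)) / 2)) := by
            apply Finset.prod_le_prod
            · intro i _
              have := hG2n (k * (inner ℝ (θ i) x - h i))
              positivity
            · intro i _; exact h2 i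
        _ = C ^ Fintype.card ι * exp (U / 2) := by
            rw [Finset.prod_mul_distrib, Finset.prod_const, Finset.card_univ, ← exp_sum]
            congr 2
            rw [hU, Upot, Finset.sum_div]
    -- the weight
    have hW : W k θ h l x ≤ exp (A' * ‖x‖ - U) := by
      unfold W wt Vpot
      apply exp_le_exp.2
      have h1 : inner ℝ l x ≤ ‖l‖ * ‖x‖ := real_inner_le_norm l x
      have h2 : ‖l‖ * ‖x‖ ≤ A' * ‖x‖ := mul_le_mul_of_nonneg_right hlA (norm_nonneg x)
      rw [← hU]
      linarith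
    have hW0 : 0 ≤ W k θ h l x := (exp_pos _).le
    have hA1 : exp (A * ‖x‖) ≤ exp (A' * ‖x‖) :=
      exp_le_exp.2 (mul_le_mul_of_nonneg_right (le_max_left _ _) (norm_nonneg x))
    have hCN : 0 ≤ C ^ Fintype.card ι := pow_nonneg hC0 _
    have hS0 : 0 ≤ (1 + ∑ i, G2 (k * (inner ℝ (θ i) x - h i))) ^ m := by
      have : 0 ≤ ∑ i, G2 (k * (inner ℝ (θ i) x - h i)) := Finset.sum_nonneg fun i _ => hG2n _
      positivity
    calc exp (A * ‖x‖) * (1 + ∑ i, G2 (k * (inner ℝ (θ i) x - h i))) ^ m * W k θ h l x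
        ≤ exp (A' * ‖x‖) * (C ^ Fintype.card ι * exp (U / 2)) * exp (A' * ‖x‖ - U) := by
          gcongr
      _ = C ^ Fintype.card ι * exp (2 * A' * ‖x‖ - U / 2) := by
          have : exp (2 * A' * ‖x‖ - U / 2)
              = exp (A' * ‖x‖) * exp (U / 2) * exp (A' * ‖x‖ - U) := by
            rw [← exp_add, ← exp_add]; congr 1; ring
          rw [this]; ring
      _ ≤ C ^ Fintype.card ι * (exp D * exp (-((n + 1) * ‖x‖))) := by
          apply mul_le_mul_of_nonneg_left _ hCN
          rw [← exp_add]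
          apply exp_le_exp.2
          -- 2A'y - U/2 ≤ D - (n+1) y
          have hy : ‖x‖ ≤ (t + |H|) / c := by
            rw [le_div_iff₀ hc]
            have := le_max_right 0 (c * ‖x‖ - |H|)
            rw [← ht] at this
            linarith
          have h1 : (2 * A' + (n + 1)) * ‖x‖ ≤ a * (t + |H|) := by
            have : (2 * A' + ((n : ℝ) + 1)) * ‖x‖ ≤ (2 * A' + (n + 1)) * ((t + |H|) / c) :=
              mul_le_mul_of_nonneg_left hy (by positivity)
            refine this.trans (le_of_eq ?_)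
            rw [ha]; ring
          have h2 := cubic_bound a b t ha0 hb0 ht0
          have h3 : U / 2 ≥ b * t ^ 3 := by
            have : b * t ^ 3 = (k₀ * t) ^ 3 / 6 / 2 := by rw [hb]; ring
            rw [this]; linarith
          rw [hD]
          nlinarith
      _ ≤ C ^ Fintype.card ι * exp D * (1 + ‖x‖) ^ (-((n : ℝ) + 1)) := by
          rw [mul_assoc]
          apply mul_le_mul_of_nonneg_left _ hCN
          apply mul_le_mul_of_nonneg_left _ (exp_pos _).le
          have h1 : (0 : ℝ) < 1 + ‖x‖ := by positivity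
          rw [rpow_neg h1.le, exp_neg]
          apply inv_anti₀ (rpow_pos_of_pos h1 _)
          rw [mul_comm, exp_mul]
          apply rpow_le_rpow h1.le _ (by positivity)
          rw [add_comm]
          exact add_one_le_exp _

end Pool.Agent.Work.LPBM.helper23
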