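import Pool.Agent.Work.MP_b5407d_lp.Interface

set_option autoImplicit false
open MeasureTheory Real Filter Topology Set

/-!
Common tools: integrability with respect to soft weights.
-/

namespace Pool.Agent.Work.LPBM.helper23

variable {n : ℕ} {ι : Type} [Fintype ι]

lemma W_pos (k : ℝ) (θ : ι → E n) (h : ι → ℝ) (l : E n) (x : E n) : 0 < W k θ h l x := exp_pos _

lemma W_cont (hSW : Stmt_SW0) (k : ℝ) (θ : ι → E n) (h : ι → ℝ) (l : E n) :
    Continuous (W k θ h l) := by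
  have hG0 : Continuous G0 := hSW.2.2.2.1.continuous
  unfold W wt Vpot Upot
  fun_prop

lemma intW (hINT : Stmt_INT) (hSW : Stmt_SW0) (θ : ι → E n) (hSpan : Span θ)
    (k : ℝ) (h : ι → ℝ) (l : E n) (hk : 0 < k) (F : E n → ℝ) (hF : Continuous F) (C A : ℝ) (m : ℕ)
    (hb : ∀ x, |F x| ≤ C * (exp (A * ‖x‖) * (1 + ∑ i, G2 (k * (inner ℝ (θ i) x - h i))) ^ m)) :
    Integrable (fun x => F x * W k θ h l x) := by
  obtain ⟨B, hB, hBb⟩ := hINT n ι θ hSpan k k (∑ i, |h i|) (max A ‖l‖) hk m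
  have hG2n : ∀ s, 0 ≤ G2 s := fun s => (hSW.2.2.2.2.2.2.1 s).trans (hSW.2.2.2.2.2.2.2.1 s)
  refine Integrable.mono' (hB.const_mul |C|) ?_ ?_
  · exact (hF.mul (W_cont hSW k θ h l)).aestronglyMeasurable
  · refine Filter.Eventually.of_forall fun x => ?_
    have h1 := hBb k h l le_rfl le_rfl
      (fun i => Finset.single_le_sum (f := fun i => |h i|) (fun j _ => abs_nonneg _) (Finset.mem_univ i))
      (le_max_right _ _) x
    have h2 : exp (A * ‖x‖) ≤ exp (max A ‖l‖ * ‖x‖) :=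
      exp_le_exp.2 (mul_le_mul_of_nonneg_right (le_max_left _ _) (norm_nonneg x))
    have hS0 : 0 ≤ (1 + ∑ i, G2 (k * (inner ℝ (θ i) x - h i))) ^ m := by
      have : 0 ≤ ∑ i, G2 (k * (inner ℝ (θ i) x - h i)) := Finset.sum_nonneg fun i _ => hG2n _
      positivity
    have hW := W_pos k θ h l x
    rw [norm_mul, norm_of_nonneg hW.le, norm_eq_abs]
    calc |F x| * W k θ h l x
        ≤ (C * (exp (A * ‖x‖) * (1 + ∑ i, G2 (k * (inner ℝ (θ i) x - h i))) ^ m)) * W k θ h l x :=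
          mul_le_mul_of_nonneg_right (hb x) hW.le
      _ = C * (exp (A * ‖x‖) * (1 + ∑ i, G2 (k * (inner ℝ (θ i) x - h i))) ^ m * W k θ h l x) := by ring
      _ ≤ |C| * (exp (A * ‖x‖) * (1 + ∑ i, G2 (k * (inner ℝ (θ i) x - h i))) ^ m * W k θ h l x) := by
          apply mul_le_mul_of_nonneg_right (le_abs_self C)
          exact mul_nonneg (mul_nonneg (exp_pos _).le hS0) hW.le
      _ ≤ |C| * (exp (max A ‖l‖ * ‖x‖) * (1 + ∑ i, G2 (k * (inner ℝ (θ i) x - h i))) ^ m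
            * W k θ h l x) := by
          gcongr
      _ ≤ |C| * B x := mul_le_mul_of_nonneg_left h1 (abs_nonneg _)

/-- polynomial growth -/
lemma intW_norm (hINT : Stmt_INT) (hSW : Stmt_SW0) (θ : ι → E n) (hSpan : Span θ)
    (k : ℝ) (h : ι → ℝ) (l : E n) (hk : 0 < k) (F : E n → ℝ) (hF : Continuous F) (C : ℝ) (m : ℕ)
    (hC : 0 ≤ C) (hb : ∀ x, |F x| ≤ C * ‖x‖ ^ m) :
    Integrable (fun x => F x * W k θ h l x) := by
  have hG2n : ∀ s, 0 ≤ G2 s := fun s => (hSW.2.2.2.2.2.2.1 s).trans (hSW.2.2.2.2.2.2.2.1 s)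
  refine intW hINT hSW θ hSpan k h l hk F hF C m 0 fun x => ?_
  refine (hb x).trans (mul_le_mul_of_nonneg_left ?_ hC)
  rw [pow_zero, mul_one, exp_nat_mul]
  apply pow_le_pow_left₀ (norm_nonneg _)
  linarith [add_one_le_exp ‖x‖]

lemma int_pos {F : E n → ℝ} (hF : Continuous F) (h0 : ∀ x, 0 ≤ F x) (hi : Integrable F)
    (x : E n) (hx : 0 < F x) : 0 < ∫ x, F x := by
  rw [integral_pos_iff_support_of_nonneg h0 hi]
  exact (hF.isOpen_support).measure_pos volume ⟨x, hx.ne'⟩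

end Pool.Agent.Work.LPBM.helper23
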